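import Mathlib

open Filter Topology Set

namespace Pool.Agent.Results.MP_122225_al.NotAmenable

/-- The entry `M_{st} = |{i : x_i s = t}| / k` of the left random walk matrix. -/
noncomputable def markov {S : Type} [Monoid S] {k : ℕ} (X : Fin k → S) (s t : S) : ℝ :=
  (Nat.card {i : Fin k // X i * s = t} : ℝ) / k

/-- `v` is in `ℓ₂(S)`. -/
def InL2 {S : Type} (v : S → ℝ) : Prop := Summable fun s => v s ^ 2

/-- The `ℓ₂`-norm. -/
noncomputable def norm2 {S : Type} (v : S → ℝ) : ℝ := Real.sqrt (∑' s, v s ^ 2)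

/-- The left random walk operator `v ↦ v M_X`. -/
noncomputable def walk {S : Type} [Monoid S] {k : ℕ} (X : Fin k → S) (v : S → ℝ) : S → ℝ :=
  fun t => ∑' s, v s * markov X s t

/-- `M_X` is defined: the sums `(vM)(t)` converge for `v ∈ ℓ₂(S)` and `vM ∈ ℓ₂(S)`. -/
def Defined {S : Type} [Monoid S] {k : ℕ} (X : Fin k → S) : Prop :=
  ∀ v : S → ℝ, InL2 v → (∀ t, Summable fun s => v s * markov X s t) ∧ InL2 (walk X v)

/-- The norm `‖A‖₂ = sup {‖A v‖₂ : ‖v‖₂ ≤ 1}` of a map `A` of `ℓ₂(S)` to itself. -/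
noncomputable def opNorm {S : Type} (A : (S → ℝ) → S → ℝ) : ℝ :=
  sSup {r | ∃ v : S → ℝ, InL2 v ∧ norm2 v ≤ 1 ∧ r = norm2 (A v)}

/-- Left amenability: a finitely additive probability measure on all subsets with
`μ(a⁻¹A) = μ(A)`. -/
def LeftAmenable (S : Type) [Monoid S] : Prop :=
  ∃ μ : Set S → ℝ, (∀ A, 0 ≤ μ A) ∧ μ univ = 1 ∧
    (∀ A B, Disjoint A B → μ (A ∪ B) = μ A + μ B) ∧
    ∀ (a : S) (A : Set S), μ {s | a * s ∈ A} = μ A

/-- Left reversibility: `aS ∩ bS ≠ ∅` for all `a, b`. -/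
def LeftReversible (S : Type) [Monoid S] : Prop :=
  ∀ a b : S, (range (fun s => a * s) ∩ range (fun s => b * s)).Nonempty

/-- The Klawe condition. -/
def Klawe (S : Type) [Monoid S] : Prop :=
  ∀ s x y : S, s * x = s * y → ∃ t : S, x * t = y * t

/-! ### Composition operators on `ℓ₂` -/

section comp

variable {S : Type}

theorem summable_sq (w : lp (fun _ : S => ℝ) 2) : Summable fun s => ‖w s‖ ^ (2 : ℝ) := by
  have := (lp.memℓp w).summable (by norm_num)
  simpa using this

theorem norm_sq (w : lp (fun _ : S => ℝ) 2) : ‖w‖ ^ (2 : ℝ) = ∑' s, ‖w s‖ ^ (2 : ℝ) := by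
  have h2 := lp.norm_rpow_eq_tsum (p := 2) (by norm_num) w
  simpa only [ENNReal.toReal_ofNat] using h2

theorem summable_prod (w : lp (fun _ : S => ℝ) 2) :
    Summable fun p : S × Fin 3 => ‖w p.1‖ ^ (2 : ℝ) := by
  refine (summable_prod_of_nonneg (fun p => by positivity)).2 ⟨fun s => Summable.of_finite, ?_⟩
  have := (summable_sq w).mul_left 3
  simpa using this

theorem mem_comp {g : S → S} {h : S → Fin 3} (hi : Function.Injective fun s => (g s, h s))
    (w : lp (fun _ : S => ℝ) 2) : Summable fun s => ‖w (g s)‖ ^ (2 : ℝ) :=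
  (summable_prod w).comp_injective (i := fun s => (g s, h s)) hi

theorem norm_comp {g : S → S} {h : S → Fin 3} (hi : Function.Injective fun s => (g s, h s))
    (w : lp (fun _ : S => ℝ) 2) :
    ∑' s, ‖w (g s)‖ ^ (2 : ℝ) ≤ 3 * ‖w‖ ^ (2 : ℝ) := by
  have h3 := tsum_comp_le_tsum_of_inj (i := fun s => (g s, h s)) (summable_prod w)
    (fun p => by positivity) hi
  refine h3.trans (le_of_eq ?_)
  rw [(summable_prod w).tsum_prod, norm_sq]
  simp only [tsum_fintype, Finset.sum_const, Finset.card_univ, Fintype.card_fin, nsmul_eq_mul,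
    Nat.cast_ofNat]
  rw [tsum_mul_left]

/-- The composition operator `w ↦ w ∘ g`, as a linear map. -/
noncomputable def compL (g : S → S) (h : S → Fin 3)
    (hi : Function.Injective fun s => (g s, h s)) :
    lp (fun _ : S => ℝ) 2 →ₗ[ℝ] lp (fun _ : S => ℝ) 2 where
  toFun := fun w => ⟨fun s => w (g s), memℓp_gen (by
    simpa only [ENNReal.toReal_ofNat] using mem_comp hi w)⟩
  map_add' := fun v w => by ext s; rfl
  map_smul' := fun c w => by ext s; rfl

theorem compL_apply (g : S → S) (h : S → Fin 3)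
    (hi : Function.Injective fun s => (g s, h s)) (w : lp (fun _ : S => ℝ) 2) (s : S) :
    compL g h hi w s = w (g s) := rfl

theorem compL_norm (g : S → S) (h : S → Fin 3)
    (hi : Function.Injective fun s => (g s, h s)) (w : lp (fun _ : S => ℝ) 2) :
    ‖compL g h hi w‖ ≤ Real.sqrt 3 * ‖w‖ := by
  have h1 : ‖compL g h hi w‖ ^ (2 : ℝ) ≤ 3 * ‖w‖ ^ (2 : ℝ) := by
    rw [norm_sq]
    simp only [compL_apply]
    exact norm_comp hi w
  rw [Real.rpow_two, Real.rpow_two] at h1
  refine le_of_sq_le_sq ?_ (by positivity)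
  rw [mul_pow, Real.sq_sqrt (by norm_num)]
  exact h1

/-- The composition operator `w ↦ w ∘ g` on `ℓ₂(S)`, for `g` with fibres of size at most `3`. -/
noncomputable def comp (g : S → S) (h : S → Fin 3) (hi : Function.Injective fun s => (g s, h s)) :
    lp (fun _ : S => ℝ) 2 →L[ℝ] lp (fun _ : S => ℝ) 2 :=
  LinearMap.mkContinuous (compL g h hi) (Real.sqrt 3) (compL_norm g h hi)

theorem comp_apply (g : S → S) (h : S → Fin 3)
    (hi : Function.Injective fun s => (g s, h s)) (w : lp (fun _ : S => ℝ) 2) (s : S) :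
    comp g h hi w s = w (g s) := rfl

end comp

/-! ### The walk operator -/

/-- `T` is the operator `v ↦ v M_X` on `ℓ₂(S)`. -/
def IsWalk {S : Type} [Monoid S] {k : ℕ} (X : Fin k → S)
    (T : lp (fun _ : S => ℝ) 2 →L[ℝ] lp (fun _ : S => ℝ) 2) : Prop :=
  ∀ (v : lp (fun _ : S => ℝ) 2) (t : S), HasSum (fun s => v s * markov X s t) (T v t)

section walk

variable {S : Type} [Monoid S]

/-- The adjoint of the walk operator: `w ↦ (s ↦ (1/k) ∑ᵢ w (xᵢ s))`. -/
noncomputable def colOp {k : ℕ} (X : Fin k → S) (h : Fin k → S → Fin 3)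
    (hi : ∀ i, Function.Injective fun s => (X i * s, h i s)) :
    lp (fun _ : S => ℝ) 2 →L[ℝ] lp (fun _ : S => ℝ) 2 :=
  (1 / (k : ℝ)) • ∑ i, comp (fun s => X i * s) (h i) (hi i)

omit [Monoid S] in
theorem coe_sum_apply {k : ℕ} (f : Fin k → lp (fun _ : S => ℝ) 2) (s : S) :
    (∑ i, f i : lp (fun _ : S => ℝ) 2) s = ∑ i, f i s := by
  rw [lp.coeFn_sum, Finset.sum_apply]

theorem colOp_apply {k : ℕ} (X : Fin k → S) (h : Fin k → S → Fin 3)
    (hi : ∀ i, Function.Injective fun s => (X i * s, h i s)) (w : lp (fun _ : S => ℝ) 2) (s : S) :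
    colOp X h hi w s = (1 / (k : ℝ)) * ∑ i, w (X i * s) := by
  unfold colOp
  rw [smul_apply, lp.coeFn_smul, Pi.smul_apply, smul_eq_mul,
    sum_apply, coe_sum_apply]
  rfl

/-- The walk operator. -/
noncomputable def walkOp {k : ℕ} (X : Fin k → S) (h : Fin k → S → Fin 3)
    (hi : ∀ i, Function.Injective fun s => (X i * s, h i s)) :
    lp (fun _ : S => ℝ) 2 →L[ℝ] lp (fun _ : S => ℝ) 2 :=
  ContinuousLinearMap.adjoint (colOp X h hi)

theorem isWalk_walkOp {k : ℕ} (X : Fin k → S) (h : Fin k → S → Fin 3)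
    (hi : ∀ i, Function.Injective fun s => (X i * s, h i s)) : IsWalk X (walkOp X h hi) := by
  classical
  intro v t
  have h1 := lp.hasSum_inner (𝕜 := ℝ) (colOp X h hi (lp.single 2 t (1 : ℝ))) v
  have h2 : inner ℝ (colOp X h hi (lp.single 2 t (1 : ℝ))) v = walkOp X h hi v t := by
    unfold walkOp
    rw [← ContinuousLinearMap.adjoint_inner_right, lp.inner_single_left]
    simp
  rw [h2] at h1
  have h3 : (fun s => v s * markov X s t) =
      fun s => inner ℝ (colOp X h hi (lp.single 2 t (1 : ℝ)) s) (v s) := by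
    funext s
    rw [colOp_apply]
    simp only [lp.single_apply, RCLike.inner_apply, conj_trivial]
    congr 1
    unfold markov
    rw [Nat.card_eq_fintype_card, Fintype.card_subtype, div_eq_mul_one_div, mul_comm]
    congr 1
    rw [Finset.card_filter]
    push_cast
    refine Finset.sum_congr rfl fun i _ => ?_
    by_cases hx : X i * s = t
    · subst hx; simp
    · rw [if_neg hx, Pi.single_apply, if_neg hx]
  rw [h3]
  exact h1

theorem norm_walkOp_pow {k : ℕ} (X : Fin k → S) (h : Fin k → S → Fin 3)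
    (hi : ∀ i, Function.Injective fun s => (X i * s, h i s)) (n : ℕ) :
    ‖walkOp X h hi ^ n‖ = ‖colOp X h hi ^ n‖ := by
  unfold walkOp
  rw [← ContinuousLinearMap.star_eq_adjoint, ← star_pow, ContinuousLinearMap.star_eq_adjoint,
    LinearIsometryEquiv.norm_map]

theorem pow_lower {k : ℕ} (X : Fin k → S) (h : Fin k → S → Fin 3)
    (hi : ∀ i, Function.Injective fun s => (X i * s, h i s)) (e : S) {θ : ℝ} (hθ0 : 0 ≤ θ)
    (hθ : ∀ w : S → ℝ, (∀ s, 0 ≤ w s) → ∀ s, θ * w (e * s) ≤ (1 / (k : ℝ)) * ∑ i, w (X i * s))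
    (n : ℕ) (w : lp (fun _ : S => ℝ) 2) (hw : ∀ s, 0 ≤ w s) (s : S) :
    θ ^ n * w (e ^ n * s) ≤ (colOp X h hi ^ n) w s := by
  induction n generalizing w s with
  | zero => simp
  | succ n ih =>
    rw [pow_succ (colOp X h hi), mul_apply_eq_comp]
    have h1 : ∀ s, 0 ≤ colOp X h hi w s := fun s => by
      rw [colOp_apply]
      exact mul_nonneg (by positivity) (Finset.sum_nonneg fun i _ => hw _)
    refine le_trans ?_ (ih _ h1 s)
    rw [colOp_apply, pow_succ θ n, mul_assoc]
    refine mul_le_mul_of_nonneg_left ?_ (by positivity)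
    have := hθ (fun s => w s) hw (e ^ n * s)
    rw [pow_succ', mul_assoc]
    exact this

theorem norm_lower {k : ℕ} (X : Fin k → S) (h : Fin k → S → Fin 3)
    (hi : ∀ i, Function.Injective fun s => (X i * s, h i s)) (e : S) {θ : ℝ} (hθ0 : 0 ≤ θ)
    (hθ : ∀ w : S → ℝ, (∀ s, 0 ≤ w s) → ∀ s, θ * w (e * s) ≤ (1 / (k : ℝ)) * ∑ i, w (X i * s))
    (n : ℕ) (A : Finset S) (hA : A.card = 2 ^ n) (hA1 : ∀ s ∈ A, e ^ n * s = 1) :
    (Real.sqrt 2 * θ) ^ n ≤ ‖walkOp X h hi ^ n‖ := by
  classical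
  rw [norm_walkOp_pow]
  have h0 : ∀ s, 0 ≤ (lp.single 2 (1 : S) (1 : ℝ) : lp (fun _ : S => ℝ) 2) s := fun s => by
    rw [lp.single_apply, Pi.single_apply]
    split_ifs <;> norm_num
  have h1 : ∀ s ∈ A, θ ^ n ≤ (colOp X h hi ^ n) (lp.single 2 (1 : S) (1 : ℝ)) s := fun s hs => by
    have := pow_lower X h hi e hθ0 hθ n (lp.single 2 (1 : S) (1 : ℝ)) h0 s
    rw [hA1 s hs] at this
    simpa using this
  have h2 := lp.sum_rpow_le_norm_rpow (p := 2) (by norm_num)
    ((colOp X h hi ^ n) (lp.single 2 (1 : S) (1 : ℝ))) A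
  simp only [ENNReal.toReal_ofNat] at h2
  have h3 : ‖(colOp X h hi ^ n) (lp.single 2 (1 : S) (1 : ℝ))‖ ≤ ‖colOp X h hi ^ n‖ := by
    refine (ContinuousLinearMap.le_opNorm _ _).trans ?_
    rw [lp.norm_single (by norm_num)]
    simp
  refine le_trans ?_ h3
  refine le_of_sq_le_sq ?_ (norm_nonneg _)
  have h4 : (2 : ℝ) ^ n * (θ ^ n) ^ 2 ≤ ∑ s ∈ A,
      ‖(colOp X h hi ^ n) (lp.single 2 (1 : S) (1 : ℝ)) s‖ ^ (2 : ℝ) := by
    calc (2 : ℝ) ^ n * (θ ^ n) ^ 2 = ∑ s ∈ A, (θ ^ n) ^ 2 := by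
          rw [Finset.sum_const, hA]; simp
      _ ≤ _ := by
          refine Finset.sum_le_sum fun s hs => ?_
          rw [Real.rpow_two]
          refine pow_le_pow_left₀ (by positivity) ((h1 s hs).trans (le_abs_self _)) 2
  rw [Real.rpow_two] at h2
  refine le_trans (le_of_eq ?_) (h4.trans h2)
  rw [mul_pow, mul_pow, ← pow_mul, mul_comm n 2, pow_mul, Real.sq_sqrt (by norm_num)]

omit [Monoid S] in
theorem memL2 {v : S → ℝ} (hv : InL2 v) : Memℓp v 2 := by
  refine memℓp_gen ?_
  simpa [InL2] using hv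

omit [Monoid S] in
theorem inL2_coe (w : lp (fun _ : S => ℝ) 2) : InL2 (w : S → ℝ) := by
  have := summable_sq w
  simpa [InL2] using this

omit [Monoid S] in
theorem norm2_coe (w : lp (fun _ : S => ℝ) 2) : norm2 (w : S → ℝ) = ‖w‖ := by
  have := norm_sq w
  simp only [Real.rpow_two, Real.norm_eq_abs, sq_abs] at this
  unfold norm2
  rw [← this, Real.sqrt_sq (norm_nonneg _)]

theorem walk_coe {k : ℕ} {X : Fin k → S}
    {T : lp (fun _ : S => ℝ) 2 →L[ℝ] lp (fun _ : S => ℝ) 2} (hT : IsWalk X T)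
    (w : lp (fun _ : S => ℝ) 2) : walk X w = T w :=
  funext fun t => (hT w t).tsum_eq

theorem iterate_coe {k : ℕ} {X : Fin k → S}
    {T : lp (fun _ : S => ℝ) 2 →L[ℝ] lp (fun _ : S => ℝ) 2} (hT : IsWalk X T) (n : ℕ)
    (w : lp (fun _ : S => ℝ) 2) : (walk X)^[n] w = (T ^ n) w := by
  induction n generalizing w with
  | zero => rfl
  | succ n ih =>
    rw [Function.iterate_succ_apply, walk_coe hT, ih, pow_succ, mul_apply_eq_comp]

theorem opNorm_iterate {k : ℕ} {X : Fin k → S}
    {T : lp (fun _ : S => ℝ) 2 →L[ℝ] lp (fun _ : S => ℝ) 2} (hT : IsWalk X T) (n : ℕ) :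
    opNorm (walk X)^[n] = ‖T ^ n‖ := by
  rw [← ContinuousLinearMap.sSup_unitClosedBall_eq_norm]
  unfold opNorm
  congr 1
  ext r
  constructor
  · rintro ⟨v, hv, hv1, rfl⟩
    refine ⟨⟨v, memL2 hv⟩, ?_, ?_⟩
    · rw [mem_closedBall_zero_iff, ← norm2_coe]
      exact hv1
    · have := iterate_coe hT n ⟨v, memL2 hv⟩
      simp only at this
      rw [this, norm2_coe]
  · rintro ⟨w, hw, rfl⟩
    refine ⟨w, inL2_coe w, ?_, ?_⟩
    · rw [norm2_coe]
      exact mem_closedBall_zero_iff.1 hw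
    · simp only
      rw [iterate_coe hT, norm2_coe]

theorem defined {k : ℕ} {X : Fin k → S}
    {T : lp (fun _ : S => ℝ) 2 →L[ℝ] lp (fun _ : S => ℝ) 2} (hT : IsWalk X T) : Defined X := by
  intro v hv
  refine ⟨fun t => (hT ⟨v, memL2 hv⟩ t).summable, ?_⟩
  have := walk_coe hT ⟨v, memL2 hv⟩
  simp only at this
  rw [this]
  exact inL2_coe _

theorem exists_radius {A : Type} [NormedRing A] (T : A) {c : ℝ} (hc : 1 < c)
    (h : ∀ n : ℕ, c ^ n ≤ ‖T ^ n‖) :
    ∃ ρ : ℝ, Tendsto (fun n : ℕ => ‖T ^ n‖ ^ (1 / (n : ℝ))) atTop (𝓝 ρ) ∧ c ≤ ρ := by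
  have hpos : ∀ n : ℕ, 0 < ‖T ^ n‖ := fun n => lt_of_lt_of_le (by positivity) (h n)
  have hsub : Subadditive fun n : ℕ => Real.log ‖T ^ n‖ := by
    intro m n
    simp only
    rw [← Real.log_mul (hpos m).ne' (hpos n).ne', pow_add]
    refine Real.log_le_log ?_ (norm_mul_le _ _)
    rw [← pow_add]; exact hpos _
  have hbdd : BddBelow (range fun n : ℕ => Real.log ‖T ^ n‖ / n) := by
    refine ⟨0, ?_⟩
    rintro _ ⟨n, rfl⟩
    refine div_nonneg (Real.log_nonneg ?_) (Nat.cast_nonneg _)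
    exact (one_le_pow₀ hc.le).trans (h n)
  have hlim := hsub.tendsto_lim hbdd
  have hlim2 : Tendsto (fun n : ℕ => ‖T ^ n‖ ^ (1 / (n : ℝ))) atTop
      (𝓝 (Real.exp hsub.lim)) := by
    refine ((Real.continuous_exp.tendsto _).comp hlim).congr fun n => ?_
    simp only [Function.comp_apply]
    rw [Real.rpow_def_of_pos (hpos n)]
    ring_nf
  refine ⟨_, hlim2, ?_⟩
  refine ge_of_tendsto hlim2 ?_
  filter_upwards [eventually_gt_atTop 0] with n hn
  have hn' : (n : ℝ) ≠ 0 := by positivity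
  calc c = (c ^ n) ^ (1 / (n : ℝ)) := by
        rw [← Real.rpow_natCast, ← Real.rpow_mul (by linarith)]
        rw [mul_one_div_cancel hn', Real.rpow_one]
    _ ≤ _ := Real.rpow_le_rpow (by positivity) (h n) (by positivity)

end walk

/-! ### The monoid -/

/-- The monoid `M ⊔ Z`; `M` (flag `false`) consists of the elements `w eᵏ` of
`⟨a, b, e | ea = eb = 1⟩`, and `Z` (flag `true`) of the elements `z w eᵏ`. -/
@[ext] structure E where
  /-- is the element in `Z`? -/
  flag : Bool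
  /-- the word -/
  w : List Bool
  /-- the exponent -/
  k : ℕ

instance : Mul E :=
  ⟨fun x y => bif y.flag then y else ⟨x.flag, x.w ++ y.w.drop x.k, (x.k - y.w.length) + y.k⟩⟩

instance : One E := ⟨⟨false, [], 0⟩⟩

theorem mul_true (x : E) (w : List Bool) (k : ℕ) : x * ⟨true, w, k⟩ = ⟨true, w, k⟩ := rfl

theorem mul_false (x : E) (w : List Bool) (k : ℕ) :
    x * ⟨false, w, k⟩ = ⟨x.flag, x.w ++ w.drop x.k, (x.k - w.length) + k⟩ := rfl

theorem one_def : (1 : E) = ⟨false, [], 0⟩ := rfl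

instance : Monoid E where
  mul_assoc x y z := by
    obtain ⟨f, w, k⟩ := x
    obtain ⟨f', w', k'⟩ := y
    obtain ⟨f'', w'', k''⟩ := z
    cases f'' with
    | true => rfl
    | false =>
      cases f' with
      | true => rfl
      | false =>
        simp only [mul_false]
        ext1
        · rfl
        · simp only [List.drop_append, List.append_assoc, List.drop_drop]
          rw [Nat.add_comm k']
        · simp only [List.length_append, List.length_drop]
          omega
  one_mul x := by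
    obtain ⟨f, w, k⟩ := x
    cases f with
    | true => rfl
    | false => simp [one_def, mul_false]
  mul_one x := by
    simp [one_def, mul_false]

/-- The generator `e`. -/
def e : E := ⟨false, [], 1⟩

/-- The generators `a` (`true`) and `b` (`false`). -/
def l (c : Bool) : E := ⟨false, [c], 0⟩

/-- The generator `z`. -/
def z : E := ⟨true, [], 0⟩

theorem e_pow (n : ℕ) : e ^ n = ⟨false, [], n⟩ := by
  induction n with
  | zero => rfl
  | succ n ih =>
    rw [pow_succ, ih, e, mul_false]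
    simp

theorem fib_e : ∃ h : E → Fin 3, Function.Injective fun y => (e * y, h y) := by
  refine ⟨fun y => match y.w with
    | [] => 0
    | true :: _ => 1
    | false :: _ => 2, ?_⟩
  rintro ⟨f, w, k⟩ ⟨f', w', k'⟩ h
  cases f <;> cases f' <;> simp only [Prod.mk.injEq] at h <;> obtain ⟨h1, h2⟩ := h
  · rw [mul_false, mul_false] at h1
    simp only [E.mk.injEq, true_and] at h1
    rcases w with _ | ⟨c, w⟩ <;> rcases w' with _ | ⟨c', w'⟩
    · simp [e] at h1 ⊢; omega
    · cases c' <;> simp at h2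
    · cases c <;> simp at h2
    · cases c <;> cases c' <;> simp at h2 <;> simpa [e] using h1
  · rw [mul_false, mul_true] at h1
    simp [e] at h1
  · rw [mul_false, mul_true] at h1
    simp [e] at h1
  · exact h1

theorem fib_l (c : Bool) : ∃ h : E → Fin 3, Function.Injective fun y => (l c * y, h y) := by
  refine ⟨fun y => 0, ?_⟩
  rintro ⟨f, w, k⟩ ⟨f', w', k'⟩ h
  cases f <;> cases f' <;> simp only [Prod.mk.injEq] at h <;> obtain ⟨h1, h2⟩ := h
  · rw [mul_false, mul_false] at h1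
    simpa [l] using h1
  · rw [mul_false, mul_true] at h1
    simp [l] at h1
  · rw [mul_false, mul_true] at h1
    simp [l] at h1
  · exact h1

theorem fib_z : ∃ h : E → Fin 3, Function.Injective fun y => (z * y, h y) := by
  refine ⟨fun y => bif y.flag then 1 else 0, ?_⟩
  rintro ⟨f, w, k⟩ ⟨f', w', k'⟩ h
  cases f <;> cases f' <;> simp only [Prod.mk.injEq] at h <;> obtain ⟨h1, h2⟩ := h
  · rw [mul_false, mul_false] at h1
    simpa [z] using h1
  · simp at h2
  · simp at h2
  · exact h1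

theorem fib_one : ∃ h : E → Fin 3, Function.Injective fun y => (1 * y, h y) := by
  refine ⟨fun y => 0, fun x y h => ?_⟩
  simp only [Prod.mk.injEq, one_mul] at h
  exact h.1

/-- The monoid of the example. -/
abbrev S : Type := E × FreeGroup Bool

theorem fib_prod {x : E} (hx : ∃ h : E → Fin 3, Function.Injective fun y => (x * y, h y))
    (q : FreeGroup Bool) :
    ∃ h : S → Fin 3, Function.Injective fun s : S => ((x, q) * s, h s) := by
  obtain ⟨h, hh⟩ := hx
  refine ⟨fun s => h s.1, fun s s' hs => ?_⟩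
  simp only [Prod.mk.injEq] at hs
  obtain ⟨h1, h2⟩ := hs
  have h1' := Prod.mk.inj h1
  have h3 := @hh s.1 s'.1 (Prod.ext h1'.1 h2)
  exact Prod.ext h3 (mul_left_cancel h1'.2)

/-- The generators other than `e`. -/
def gen : Fin 7 → S :=
  ![(l true, 1), (l false, 1), (z, 1), (1, FreeGroup.of true), (1, (FreeGroup.of true)⁻¹),
    (1, FreeGroup.of false), (1, (FreeGroup.of false)⁻¹)]

/-- The generating family: `21` copies of `e` and seven further elements. -/
def X : Fin (21 + 7) → S := Fin.append (fun _ => (e, 1)) gen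

theorem fib (i : Fin (21 + 7)) :
    ∃ h : S → Fin 3, Function.Injective fun s : S => (X i * s, h s) := by
  refine Fin.addCases (fun i => ?_) (fun i => ?_) i
  · unfold X
    simp only [Fin.append_left]
    exact fib_prod fib_e _
  · unfold X
    simp only [Fin.append_right]
    fin_cases i
    · exact fib_prod (fib_l _) _
    · exact fib_prod (fib_l _) _
    · exact fib_prod fib_z _
    · exact fib_prod fib_one _
    · exact fib_prod fib_one _
    · exact fib_prod fib_one _
    · exact fib_prod fib_one _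

theorem closure_X : Submonoid.closure (range X) = ⊤ := by
  have he : ((e, 1) : S) ∈ Submonoid.closure (range X) :=
    Submonoid.subset_closure ⟨Fin.castAdd 7 0, by unfold X; rw [Fin.append_left]⟩
  have hg : ∀ i, gen i ∈ Submonoid.closure (range X) := fun i =>
    Submonoid.subset_closure ⟨Fin.natAdd 21 i, by unfold X; rw [Fin.append_right]⟩
  have hl : ∀ c, ((l c, 1) : S) ∈ Submonoid.closure (range X) := fun c => by
    cases c
    · exact hg 1
    · exact hg 0
  have hz : ((z, 1) : S) ∈ Submonoid.closure (range X) := hg 2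
  have hq : ∀ q : FreeGroup Bool, ((1, q) : S) ∈ Submonoid.closure (range X) := fun q => by
    refine FreeGroup.induction_on q (one_mem _) (fun c => ?_) (fun c _ => ?_)
      fun x y hx hy => ?_
    · cases c
      · exact hg 5
      · exact hg 3
    · cases c
      · exact hg 6
      · exact hg 4
    · have := mul_mem hx hy
      simpa using this
  have hk : ∀ k : ℕ, ((⟨false, [], k⟩, 1) : S) ∈ Submonoid.closure (range X) := fun k => by
    have := pow_mem he k
    rw [Prod.pow_mk, e_pow, one_pow] at this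
    exact this
  have hw : ∀ (w : List Bool) (k : ℕ), ((⟨false, w, k⟩, 1) : S) ∈ Submonoid.closure (range X) :=
    fun w k => by
    induction w with
    | nil => exact hk k
    | cons c w ih =>
      have := mul_mem (hl c) ih
      rw [Prod.mk_mul_mk, mul_false, one_mul] at this
      simpa [l] using this
  rw [eq_top_iff]
  rintro ⟨⟨f, w, k⟩, q⟩ -
  cases f
  · have := mul_mem (hw w k) (hq q)
    simpa using this
  · have := mul_mem hz (mul_mem (hw w k) (hq q))
    rw [Prod.mk_mul_mk, Prod.mk_mul_mk, mul_one, mul_false, one_mul, one_mul] at this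
    simpa [z] using this

theorem leftReversible : LeftReversible S := by
  rintro ⟨x, q⟩ ⟨x', q'⟩
  refine ⟨(z, 1), ⟨(z, q⁻¹), ?_⟩, ⟨(z, q'⁻¹), ?_⟩⟩
  · simp only [Prod.mk_mul_mk, mul_inv_cancel]; rfl
  · simp only [Prod.mk_mul_mk, mul_inv_cancel]; rfl

theorem klawe : Klawe S := by
  rintro ⟨s, p⟩ ⟨x, q⟩ ⟨x', q'⟩ h
  have h2 : q = q' := mul_left_cancel (Prod.mk.inj h).2
  subst h2
  exact ⟨(z, 1), rfl⟩

/-! ### Nonamenability -/

/-- `(x, y) ↦ (x + 3 y, y)` -/
def t : Equiv.Perm (ℤ × ℤ) where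
  toFun p := (p.1 + 3 * p.2, p.2)
  invFun p := (p.1 - 3 * p.2, p.2)
  left_inv p := by ext <;> simp
  right_inv p := by ext <;> simp

/-- `(x, y) ↦ (x, y + 3 x)` -/
def u : Equiv.Perm (ℤ × ℤ) where
  toFun p := (p.1, p.2 + 3 * p.1)
  invFun p := (p.1, p.2 - 3 * p.1)
  left_inv p := by ext <;> simp
  right_inv p := by ext <;> simp

/-- the action of the free group on `ℤ²` -/
def act : FreeGroup Bool →* Equiv.Perm (ℤ × ℤ) := FreeGroup.lift fun c => bif c then t else u

theorem act_zero (g : FreeGroup Bool) : act g 0 = 0 := by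
  have h : ∀ c, act (FreeGroup.of c) 0 = 0 := fun c => by
    cases c <;> simp [act, t, u]
  refine FreeGroup.induction_on g (by simp) h (fun c _ => ?_) fun x y hx hy => ?_
  · rw [map_inv, Equiv.Perm.inv_eq_iff_eq]
    exact (h c).symm
  · rw [map_mul, Equiv.Perm.mul_apply, hy, hx]

theorem not_amenable : ¬ LeftAmenable S := by
  rintro ⟨μ, h0, h1, hadd, hinv⟩
  have hmono : ∀ A B : Set S, A ⊆ B → μ A ≤ μ B := fun A B hAB => by
    have := hadd A (B \ A) disjoint_sdiff_right
    rw [union_sdiff_cancel hAB] at this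
    linarith [h0 (B \ A)]
  have hsub : ∀ A B : Set S, μ (A ∪ B) ≤ μ A + μ B := fun A B => by
    have h2 := hadd A (B \ A) disjoint_sdiff_right
    rw [union_sdiff_self] at h2
    linarith [hmono (B \ A) B sdiff_subset]
  have hthree : ∀ A B C : Set S, Disjoint A B → Disjoint (A ∪ B) C → μ B = μ A → μ C = μ A →
      μ A ≤ 1 / 3 := fun A B C hAB hC hB hC' => by
    have h2 := hadd A B hAB
    have h3 := hadd _ C hC
    have h4 := hmono (A ∪ B ∪ C) univ (subset_univ _)
    linarith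
  have hnu : ∀ (g : FreeGroup Bool) (B : Set (ℤ × ℤ)),
      μ {s | act g (act s.2 (1, 0)) ∈ B} = μ {s | act s.2 (1, 0) ∈ B} := fun g B => by
    have := hinv (1, g) {s | act s.2 (1, 0) ∈ B}
    simp only [mem_ofPred_eq, Prod.snd_mul, map_mul, Equiv.Perm.mul_apply] at this
    exact this
  have hne : ∀ s : S, act s.2 (1, 0) ≠ 0 := fun s h => by
    have := (act s.2).injective (h.trans (act_zero s.2).symm)
    simp at this
  have ht : ∀ p : ℤ × ℤ, act (FreeGroup.of true) p = (p.1 + 3 * p.2, p.2) := fun p => by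
    simp [act, t]
  have hu : ∀ p : ℤ × ℤ, act (FreeGroup.of false) p = (p.1, p.2 + 3 * p.1) := fun p => by
    simp [act, u]
  have hD : μ {s | act s.2 (1, 0) ∈ {p : ℤ × ℤ | |p.1| ≤ |p.2| ∧ p.2 ≠ 0}} ≤ 1 / 3 := by
    refine hthree _ _ _ ?_ ?_ (hnu (FreeGroup.of true) _)
      (hnu (FreeGroup.of true * FreeGroup.of true) _)
    · rw [Set.disjoint_left]
      rintro s ⟨h2, h3⟩ h4
      simp only [mem_ofPred_eq, ht] at h4
      obtain ⟨h4, -⟩ := h4
      revert h2 h3 h4
      generalize act s.2 (1, 0) = p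
      rintro h2 h3 h4
      rcases abs_cases p.1 with ⟨h5, _⟩ | ⟨h5, _⟩ <;> rcases abs_cases p.2 with ⟨h6, _⟩ | ⟨h6, _⟩ <;>
        rcases abs_cases (p.1 + 3 * p.2) with ⟨h7, _⟩ | ⟨h7, _⟩ <;> omega
    · rw [Set.disjoint_left]
      rintro s h8 h4
      simp only [mem_ofPred_eq, map_mul, Equiv.Perm.mul_apply, ht] at h4
      simp only [mem_union, mem_ofPred_eq, ht] at h8
      obtain ⟨h4, -⟩ := h4
      revert h8 h4
      generalize act s.2 (1, 0) = p
      rintro h8 h4
      rcases abs_cases p.1 with ⟨h5, _⟩ | ⟨h5, _⟩ <;> rcases abs_cases p.2 with ⟨h6, _⟩ | ⟨h6, _⟩ <;>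
        rcases abs_cases (p.1 + 3 * p.2) with ⟨h7, _⟩ | ⟨h7, _⟩ <;>
        rcases abs_cases (p.1 + 3 * p.2 + 3 * p.2) with ⟨h9, _⟩ | ⟨h9, _⟩ <;> omega
  have hD' : μ {s | act s.2 (1, 0) ∈ {p : ℤ × ℤ | |p.2| ≤ |p.1| ∧ p.1 ≠ 0}} ≤ 1 / 3 := by
    refine hthree _ _ _ ?_ ?_ (hnu (FreeGroup.of false) _)
      (hnu (FreeGroup.of false * FreeGroup.of false) _)
    · rw [Set.disjoint_left]
      rintro s ⟨h2, h3⟩ h4
      simp only [mem_ofPred_eq, hu] at h4
      obtain ⟨h4, -⟩ := h4
      revert h2 h3 h4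
      generalize act s.2 (1, 0) = p
      rintro h2 h3 h4
      rcases abs_cases p.1 with ⟨h5, _⟩ | ⟨h5, _⟩ <;> rcases abs_cases p.2 with ⟨h6, _⟩ | ⟨h6, _⟩ <;>
        rcases abs_cases (p.2 + 3 * p.1) with ⟨h7, _⟩ | ⟨h7, _⟩ <;> omega
    · rw [Set.disjoint_left]
      rintro s h8 h4
      simp only [mem_ofPred_eq, map_mul, Equiv.Perm.mul_apply, hu] at h4
      simp only [mem_union, mem_ofPred_eq, hu] at h8
      obtain ⟨h4, -⟩ := h4
      revert h8 h4
      generalize act s.2 (1, 0) = p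
      rintro h8 h4
      rcases abs_cases p.1 with ⟨h5, _⟩ | ⟨h5, _⟩ <;> rcases abs_cases p.2 with ⟨h6, _⟩ | ⟨h6, _⟩ <;>
        rcases abs_cases (p.2 + 3 * p.1) with ⟨h7, _⟩ | ⟨h7, _⟩ <;>
        rcases abs_cases (p.2 + 3 * p.1 + 3 * p.1) with ⟨h9, _⟩ | ⟨h9, _⟩ <;> omega
  have huniv : (univ : Set S) ⊆ {s | act s.2 (1, 0) ∈ {p : ℤ × ℤ | |p.1| ≤ |p.2| ∧ p.2 ≠ 0}} ∪
      {s | act s.2 (1, 0) ∈ {p : ℤ × ℤ | |p.2| ≤ |p.1| ∧ p.1 ≠ 0}} := by
    intro s _
    have := hne s
    simp only [mem_union, mem_ofPred_eq]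
    revert this
    generalize act s.2 (1, 0) = p
    intro h2
    by_cases h3 : |p.1| ≤ |p.2|
    · by_cases h4 : p.2 = 0
      · exfalso
        rw [h4, abs_zero] at h3
        have h5 : p.1 = 0 := abs_eq_zero.1 (le_antisymm h3 (abs_nonneg _))
        exact h2 (Prod.ext h5 h4)
      · exact Or.inl ⟨h3, h4⟩
    · refine Or.inr ⟨(not_le.1 h3).le, fun h4 => h3 ?_⟩
      rw [h4, abs_zero]; positivity
  have := (hmono _ _ huniv).trans (hsub _ _)
  rw [h1] at this
  linarith

/-- **Theorem.** There is a finitely generated, left reversible monoid with the Klawe condition and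
a finite generating family whose left random walk operator is defined on `ℓ₂` and has spectral
radius and norm larger than `1`, although the monoid is not left amenable. -/
theorem result : ∃ (S : Type) (_ : Monoid S) (k : ℕ) (X : Fin k → S),
    Submonoid.closure (range X) = ⊤ ∧ LeftReversible S ∧ Klawe S ∧ Defined X ∧
    (∃ ρ : ℝ, Tendsto (fun n : ℕ => opNorm (walk X)^[n] ^ (1 / (n : ℝ))) atTop (𝓝 ρ) ∧ 1 < ρ) ∧
    1 < opNorm (walk X) ∧ ¬ LeftAmenable S := by
  classical
  choose h hi using fib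
  have hθ : ∀ w : S → ℝ, (∀ s, 0 ≤ w s) → ∀ s,
      (3 / 4 : ℝ) * w ((e, 1) * s) ≤ (1 / ((21 + 7 : ℕ) : ℝ)) * ∑ i, w (X i * s) := by
    intro w hw s
    rw [Fin.sum_univ_add]
    unfold X
    simp only [Fin.append_left, Fin.append_right, Finset.sum_const, Finset.card_univ,
      Fintype.card_fin, nsmul_eq_mul]
    have h2 : 0 ≤ ∑ i, w (gen i * s) := Finset.sum_nonneg fun i _ => hw _
    push_cast
    linarith
  have hlow : ∀ n : ℕ, (Real.sqrt 2 * (3 / 4)) ^ n ≤ ‖walkOp X h hi ^ n‖ := by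
    intro n
    refine norm_lower X h hi (e, 1) (by norm_num) hθ n
      (Finset.univ.image fun f : Fin n → Bool => ((⟨false, List.ofFn f, 0⟩, 1) : S)) ?_ ?_
    · rw [Finset.card_image_of_injective, Finset.card_univ]
      · simp
      · intro f g hfg
        have := (Prod.mk.inj hfg).1
        simp only [E.mk.injEq, true_and, and_true] at this
        exact List.ofFn_injective this
    · intro s hs
      obtain ⟨f, -, rfl⟩ := Finset.mem_image.1 hs
      rw [Prod.pow_mk, e_pow, Prod.mk_mul_mk, mul_false]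
      simp [one_def]
  have hc : 1 < Real.sqrt 2 * (3 / 4) := by
    have : Real.sqrt (16 / 9) < Real.sqrt 2 := Real.sqrt_lt_sqrt (by norm_num) (by norm_num)
    rw [show (16 / 9 : ℝ) = (4 / 3) ^ 2 by norm_num, Real.sqrt_sq (by norm_num)] at this
    linarith
  obtain ⟨ρ, hρ, hρ1⟩ := exists_radius (walkOp X h hi) hc hlow
  have hW := isWalk_walkOp X h hi
  refine ⟨S, inferInstance, 21 + 7, X, closure_X, leftReversible, klawe,
    defined hW, ⟨ρ, ?_, hc.trans_le hρ1⟩, ?_, not_amenable⟩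
  · simp only [opNorm_iterate hW]
    exact hρ
  have h1 := opNorm_iterate hW 1
  rw [Function.iterate_one] at h1
  rw [h1]
  have := hlow 1
  rw [pow_one] at this
  exact hc.trans_le this

end Pool.Agent.Results.MP_122225_al.NotAmenable
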